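import Mathlib

/-!
Two counting lemmas.

* `ms`: the inequality of Motzkin and Straus for the graph `x + y ∈ A`.
* `edges`: a finite set `Y` contains at most `2 |Y| (log₂ |Y| + 1)` pairs whose differences come from
  a lacunary sequence.
-/

set_option autoImplicit false

open Finset

namespace Pool.MPc7c4cf

/-- `x = y` or `x + y ∈ A`. -/
def Adj (A : Finset ℕ) (x y : ℕ) : Prop := x = y ∨ x + y ∈ A

instance (A : Finset ℕ) (x y : ℕ) : Decidable (Adj A x y) := by
  unfold Adj
  infer_instance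

theorem Adj.symm {A : Finset ℕ} {x y : ℕ} (h : Adj A x y) : Adj A y x := by
  rcases h with h | h
  · exact Or.inl h.symm
  · exact Or.inr (by rwa [add_comm])

theorem ms (A : Finset ℕ) (w : ℕ → ℝ) (hw : ∀ x, 0 ≤ w x) (l : ℕ) : ∀ S : Finset ℕ,
    (∀ B ⊆ S, (∀ b ∈ B, ∀ b' ∈ B, b ≠ b' → b + b' ∉ A) → B.card ≤ l) →
    (∑ x ∈ S, w x) ^ 2 ≤ l * ∑ x ∈ S, w x * ∑ y ∈ S with Adj A x y, w y := by
  induction l with
  | zero =>
    intro S hS
    have h0 : S = ∅ := by
      rw [← Finset.not_nonempty_iff_eq_empty]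
      rintro ⟨x, hx⟩
      have := hS {x} (by simpa using hx) (by
        intro b hb b' hb' hne
        rw [mem_singleton] at hb hb'
        exact absurd (hb.trans hb'.symm) hne)
      simp at this
    simp [h0]
  | succ l ih =>
    intro S hS
    rcases S.eq_empty_or_nonempty with h0 | hne
    · simp [h0]
    set d : ℕ → ℝ := fun x => ∑ y ∈ S with Adj A x y, w y with hd
    obtain ⟨u, huS, hu⟩ := S.exists_min_image d hne
    set S' := S.filter fun y => ¬ Adj A u y with hS'
    have hsub : S' ⊆ S := filter_subset _ _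
    have huS' : u ∉ S' := by
      simp [hS', Adj]
    have hS'ind : ∀ B ⊆ S', (∀ b ∈ B, ∀ b' ∈ B, b ≠ b' → b + b' ∉ A) → B.card ≤ l := by
      intro B hB hBi
      have huB : u ∉ B := fun h => huS' (hB h)
      have h1 := hS (insert u B) (by
        intro x hx
        rcases mem_insert.mp hx with rfl | hx
        · exact huS
        · exact hsub (hB hx)) (by
        intro b hb b' hb' hne
        have key : ∀ c ∈ B, u + c ∉ A := by
          intro c hc hcA
          have := (mem_filter.mp (hB hc)).2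
          exact this (Or.inr hcA)
        rcases mem_insert.mp hb with hb1 | hb1
        · rcases mem_insert.mp hb' with hb2 | hb2
          · exact absurd (hb1.trans hb2.symm) hne
          · rw [hb1]
            exact key b' hb2
        · rcases mem_insert.mp hb' with hb2 | hb2
          · rw [hb2, add_comm]
            exact key b hb1
          · exact hBi b hb1 b' hb2 hne)
      rw [card_insert_of_notMem huB] at h1
      omega
    have hIH := ih S' hS'ind
    set σ' := ∑ x ∈ S', w x with hσ'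
    set Q' := ∑ x ∈ S', w x * ∑ y ∈ S' with Adj A x y, w y with hQ'
    have hσ : ∑ x ∈ S, w x = d u + σ' := by
      rw [hd, hσ', hS']
      exact (sum_filter_add_sum_filter_not S (fun y => Adj A u y) w).symm
    have hdu : 0 ≤ d u := sum_nonneg fun y _ => hw y
    have hσ0 : 0 ≤ σ' := sum_nonneg fun y _ => hw y
    have hQ0 : 0 ≤ Q' := sum_nonneg fun x _ => mul_nonneg (hw x) (sum_nonneg fun y _ => hw y)
    have hQ : d u * d u + Q' ≤ ∑ x ∈ S, w x * d x := by
      rw [← sum_filter_add_sum_filter_not S (fun y => Adj A u y) (fun x => w x * d x)]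
      apply add_le_add
      · calc d u * d u = ∑ x ∈ S with Adj A u x, w x * d u := by
              rw [← sum_mul]
          _ ≤ _ := by
              apply sum_le_sum
              intro x hx
              exact mul_le_mul_of_nonneg_left (hu x (mem_filter.mp hx).1) (hw x)
      · rw [hQ']
        apply sum_le_sum
        intro x _
        apply mul_le_mul_of_nonneg_left _ (hw x)
        apply sum_le_sum_of_subset_of_nonneg
        · exact filter_subset_filter _ hsub
        · intro y _ _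
          exact hw y
    rw [hσ]
    have h2 : (d u + σ') ^ 2 ≤ ((l : ℝ) + 1) * (d u * d u + Q') := by
      rcases Nat.eq_zero_or_pos l with h0 | h0
      · rw [h0] at hIH ⊢
        have h3 : σ' = 0 := by
          have : σ' ^ 2 ≤ 0 := by simpa using hIH
          nlinarith
        rw [h3]
        nlinarith
      · have hl : (0 : ℝ) < l := by exact_mod_cast h0
        have h4 : 2 * (l : ℝ) * (d u * σ') ≤ (l * d u) ^ 2 + σ' ^ 2 := by
          nlinarith [sq_nonneg (l * d u - σ')]
        have h5 : (l : ℝ) * (d u + σ') ^ 2 ≤ l * (((l : ℝ) + 1) * (d u * d u + Q')) := by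
          nlinarith [mul_le_mul_of_nonneg_left hIH hl.le]
        exact le_of_mul_le_mul_left h5 hl
    push_cast
    exact h2.trans (mul_le_mul_of_nonneg_left hQ (by positivity))

/-- A set of levels at which a function at least doubles is small. -/
theorem card_doubling (N : ℕ) (f : ℤ → ℕ) (D : Finset ℤ) (h1 : ∀ j ∈ D, 1 ≤ f j)
    (h2 : ∀ j ∈ D, ∀ j' ∈ D, j' < j → 2 * f j' ≤ f j) (hN : ∀ j ∈ D, f j ≤ N) :
    D.card ≤ Nat.log 2 N + 1 := by
  have key : ∀ D : Finset ℤ, (∀ j ∈ D, 1 ≤ f j) →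
      (∀ j ∈ D, ∀ j' ∈ D, j' < j → 2 * f j' ≤ f j) → D.Nonempty →
      ∃ j ∈ D, 2 ^ D.card ≤ 2 * f j := by
    intro D
    induction D using Finset.induction_on_max with
    | empty => intro _ _ h; exact absurd h (by simp)
    | insert a s ha ih =>
      intro h1 h2 _
      have has : a ∉ s := fun h => lt_irrefl _ (ha a h)
      refine ⟨a, mem_insert_self _ _, ?_⟩
      rw [card_insert_of_notMem has]
      rcases s.eq_empty_or_nonempty with h0 | hne
      · subst h0
        have := h1 a (mem_insert_self _ _)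
        simp
        omega
      · obtain ⟨j, hj, hj2⟩ := ih (fun j hj => h1 j (mem_insert_of_mem hj))
          (fun j hj j' hj' => h2 j (mem_insert_of_mem hj) j' (mem_insert_of_mem hj')) hne
        have := h2 a (mem_insert_self _ _) j (mem_insert_of_mem hj) (ha j hj)
        rw [pow_succ]
        omega
  rcases D.eq_empty_or_nonempty with h0 | hne
  · subst h0
    simp
  · obtain ⟨j, hj, hj2⟩ := key D h1 h2 hne
    have h3 := hN j hj
    have hc : 0 < D.card := card_pos.mpr hne
    obtain ⟨q, hq⟩ : ∃ q, D.card = q + 1 := ⟨D.card - 1, by omega⟩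
    rw [hq, pow_succ] at hj2
    have h4 : 2 ^ q ≤ N := by omega
    have hN0 : N ≠ 0 := by
      have : 0 < 2 ^ q := by positivity
      omega
    have h5 := (Nat.le_log_iff_pow_le (by norm_num) hN0).mpr h4
    omega

section
variable (ψ : ℕ → ℝ) (Y : Finset ℕ)

/-- Number of points of `Y` in `(ψ y, ψ y + r]`. -/
noncomputable def Rt (y : ℕ) (r : ℝ) : ℕ := by
  classical exact (Y.filter fun z => ψ y < ψ z ∧ ψ z ≤ ψ y + r).card

/-- Number of points of `Y` in `[ψ y - r, ψ y)`. -/
noncomputable def Lt (y : ℕ) (r : ℝ) : ℕ := by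
  classical exact (Y.filter fun z => ψ y - r ≤ ψ z ∧ ψ z < ψ y).card

theorem edge_charge {y z : ℕ} (hy : y ∈ Y) (hz : z ∈ Y) {r r₁ r₂ : ℝ} (hr : 0 < r)
    (hyz : ψ z = ψ y + r) (h1 : 2 * r₁ < r) (h2 : 2 * r₂ < r) :
    2 * Rt ψ Y y r₁ ≤ Rt ψ Y y r ∨ 2 * Lt ψ Y z r₂ ≤ Lt ψ Y z r := by
  classical
  set M := (Y.filter fun x => ψ y < ψ x ∧ ψ x < ψ z).card with hM
  have hR : M + 1 ≤ Rt ψ Y y r := by
    unfold Rt
    rw [hM]
    have hnot : z ∉ Y.filter fun x => ψ y < ψ x ∧ ψ x < ψ z := by simp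
    rw [← card_insert_of_notMem hnot]
    apply card_le_card
    intro x hx
    rcases mem_insert.mp hx with rfl | hx
    · exact mem_filter.mpr ⟨hz, by constructor <;> linarith⟩
    · obtain ⟨h3, h4, h5⟩ := mem_filter.mp hx
      exact mem_filter.mpr ⟨h3, h4, by linarith⟩
  have hL : M + 1 ≤ Lt ψ Y z r := by
    unfold Lt
    rw [hM]
    have hnot : y ∉ Y.filter fun x => ψ y < ψ x ∧ ψ x < ψ z := by simp
    rw [← card_insert_of_notMem hnot]
    apply card_le_card
    intro x hx
    rcases mem_insert.mp hx with rfl | hx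
    · exact mem_filter.mpr ⟨hy, by constructor <;> linarith⟩
    · obtain ⟨h3, h4, h5⟩ := mem_filter.mp hx
      exact mem_filter.mpr ⟨h3, by linarith, h5⟩
  have hsum : Rt ψ Y y r₁ + Lt ψ Y z r₂ ≤ M := by
    unfold Rt Lt
    rw [← card_union_of_disjoint, hM]
    · apply card_le_card
      intro x hx
      rcases mem_union.mp hx with hx | hx
      · obtain ⟨h3, h4, h5⟩ := mem_filter.mp hx
        exact mem_filter.mpr ⟨h3, h4, by linarith⟩
      · obtain ⟨h3, h4, h5⟩ := mem_filter.mp hx
        exact mem_filter.mpr ⟨h3, by linarith, h5⟩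
    · rw [disjoint_left]
      intro x hx hx'
      obtain ⟨_, h4, h5⟩ := mem_filter.mp hx
      obtain ⟨_, h6, h7⟩ := mem_filter.mp hx'
      linarith
  by_contra hcon
  push Not at hcon
  omega

/-- A finite set contains few pairs with differences in a lacunary sequence. -/
theorem edges (K : Finset ℤ) (x : ℤ → ℕ) (hx : ∀ j ∈ K, 0 < ψ (x j))
    (hlac : ∀ j ∈ K, ∀ j' ∈ K, j' < j → 2 * ψ (x j') < ψ (x j))
    (E : ℤ → Finset ℕ) (hE : ∀ j ∈ K, ∀ y ∈ E j, y ∈ Y ∧ x j + y ∈ Y ∧
      ψ (x j + y) = ψ (x j) + ψ y) :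
    ∑ j ∈ K, (E j).card ≤ 2 * Y.card * (Nat.log 2 Y.card + 1) := by
  classical
  -- right and left doubling levels
  set DR : ℕ → Finset ℤ := fun y => K.filter fun j => 1 ≤ Rt ψ Y y (ψ (x j)) ∧
    ∀ j' ∈ K, j' < j → 2 * Rt ψ Y y (ψ (x j')) ≤ Rt ψ Y y (ψ (x j)) with hDR
  set DL : ℕ → Finset ℤ := fun y => K.filter fun j => 1 ≤ Lt ψ Y y (ψ (x j)) ∧
    ∀ j' ∈ K, j' < j → 2 * Lt ψ Y y (ψ (x j')) ≤ Lt ψ Y y (ψ (x j)) with hDL
  have hcR : ∀ y, (DR y).card ≤ Nat.log 2 Y.card + 1 := by
    intro y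
    apply card_doubling Y.card (fun j => Rt ψ Y y (ψ (x j)))
    · intro j hj
      exact (mem_filter.mp hj).2.1
    · intro j hj j' hj' hlt
      exact (mem_filter.mp hj).2.2 j' (mem_filter.mp hj').1 hlt
    · intro j _
      unfold Rt
      exact card_filter_le _ _
  have hcL : ∀ y, (DL y).card ≤ Nat.log 2 Y.card + 1 := by
    intro y
    apply card_doubling Y.card (fun j => Lt ψ Y y (ψ (x j)))
    · intro j hj
      exact (mem_filter.mp hj).2.1
    · intro j hj j' hj' hlt
      exact (mem_filter.mp hj).2.2 j' (mem_filter.mp hj').1 hlt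
    · intro j _
      unfold Lt
      exact card_filter_le _ _
  have hone : ∀ j ∈ K, (E j).card ≤ (Y.filter fun y => j ∈ DR y).card +
      (Y.filter fun y => j ∈ DL y).card := by
    intro j hj
    have hsub : E j ⊆ (Y.filter fun y => j ∈ DR y) ∪
        ((E j).filter fun y => j ∈ DL (x j + y)) := by
      intro y hy
      obtain ⟨hyY, hzY, hyz⟩ := hE j hj y hy
      by_cases h1 : j ∈ DR y
      · exact mem_union_left _ (mem_filter.mpr ⟨hyY, h1⟩)
      by_cases h2 : j ∈ DL (x j + y)
      · exact mem_union_right _ (mem_filter.mpr ⟨hy, h2⟩)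
      exfalso
      have hr := hx j hj
      have hR1 : 1 ≤ Rt ψ Y y (ψ (x j)) := by
        unfold Rt
        exact card_pos.mpr ⟨x j + y, mem_filter.mpr ⟨hzY, by constructor <;> linarith⟩⟩
      have hL1 : 1 ≤ Lt ψ Y (x j + y) (ψ (x j)) := by
        unfold Lt
        exact card_pos.mpr ⟨y, mem_filter.mpr ⟨hyY, by constructor <;> linarith⟩⟩
      have h3 : ∃ j' ∈ K, j' < j ∧ Rt ψ Y y (ψ (x j)) < 2 * Rt ψ Y y (ψ (x j')) := by
        by_contra h
        push Not at h
        exact h1 (mem_filter.mpr ⟨hj, hR1, h⟩)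
      have h4 : ∃ j' ∈ K, j' < j ∧
          Lt ψ Y (x j + y) (ψ (x j)) < 2 * Lt ψ Y (x j + y) (ψ (x j')) := by
        by_contra h
        push Not at h
        exact h2 (mem_filter.mpr ⟨hj, hL1, h⟩)
      obtain ⟨j₁, hj₁, hlt₁, h5⟩ := h3
      obtain ⟨j₂, hj₂, hlt₂, h6⟩ := h4
      rcases edge_charge ψ Y hyY hzY hr (by rw [hyz, add_comm]) (hlac j hj j₁ hj₁ hlt₁)
        (hlac j hj j₂ hj₂ hlt₂) with h7 | h7 <;> omega
    refine (card_le_card hsub).trans ((card_union_le _ _).trans (Nat.add_le_add_left ?_ _))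
    apply card_le_card_of_injOn (fun y => x j + y)
    · intro y hy
      obtain ⟨h1, h2⟩ := mem_filter.mp (mem_coe.mp hy)
      exact mem_coe.mpr (mem_filter.mpr ⟨(hE j hj y h1).2.1, h2⟩)
    · intro y _ y' _ h
      simpa using h
  have hswap : ∀ D : ℕ → Finset ℤ, (∀ y, D y ⊆ K) →
      ∑ j ∈ K, (Y.filter fun y => j ∈ D y).card = ∑ y ∈ Y, (D y).card := by
    intro D hD
    have h1 : ∀ y ∈ Y, (D y).card = (K.filter fun j => j ∈ D y).card := by
      intro y _
      congr 1
      ext j
      rw [mem_filter]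
      exact ⟨fun h => ⟨hD y h, h⟩, fun h => h.2⟩
    rw [sum_congr rfl h1]
    simp only [card_filter]
    exact sum_comm
  calc ∑ j ∈ K, (E j).card
      ≤ ∑ j ∈ K, ((Y.filter fun y => j ∈ DR y).card + (Y.filter fun y => j ∈ DL y).card) :=
        sum_le_sum hone
    _ = ∑ y ∈ Y, (DR y).card + ∑ y ∈ Y, (DL y).card := by
        rw [sum_add_distrib, hswap DR fun y => filter_subset _ _, hswap DL fun y =>
          filter_subset _ _]
    _ ≤ ∑ y ∈ Y, (Nat.log 2 Y.card + 1) + ∑ y ∈ Y, (Nat.log 2 Y.card + 1) :=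
        Nat.add_le_add (sum_le_sum fun y _ => hcR y) (sum_le_sum fun y _ => hcL y)
    _ = 2 * Y.card * (Nat.log 2 Y.card + 1) := by
        rw [sum_const, smul_eq_mul]
        ring

end

end Pool.MPc7c4cf
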