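import Pool.Agent.H.MP_c7c4cf_nt.Edges

/-!
The number of dyadic windows met by a set without large sum-free subsets.
-/

set_option autoImplicit false

open Finset

namespace Pool.MPc7c4cf

section
variable (A : Finset ℕ) (ψ : ℕ → ℝ)

/-- A nonempty set of points of `A` next to the point `a` which is at least half of the points in a
slightly longer interval. -/
theorem exists_block (P : ℕ) (hP1 : 1 ≤ P) (k : ℤ) (a : ℕ) (haA : a ∈ A)
    (ha1 : (2 : ℝ) ^ k ≤ ψ a) (ha2 : ψ a < (2 : ℝ) ^ (k + 1))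
    (hP : (A.filter fun z => ψ a ≤ ψ z ∧ ψ z < ψ a + (2 : ℝ) ^ k / P).card ≤ P) :
    ∃ V V' : Finset ℕ, V ⊆ A ∧ V' ⊆ A ∧ V ⊆ V' ∧ V.Nonempty ∧ V'.card ≤ 2 * V.card ∧ V'.card ≤ P ∧
      (∀ z ∈ V', (2 : ℝ) ^ k ≤ ψ z ∧ ψ z < (2 : ℝ) ^ (k + 2)) ∧
      ∀ y ∈ V, ∀ z ∈ A, ψ y ≤ ψ z →
        ((Nat.log 2 P + 2 : ℕ) : ℝ) * (P * (ψ z - ψ y)) ≤ (2 : ℝ) ^ k → z ∈ V' := by
  classical
  set T : ℕ := Nat.log 2 P + 2 with hT
  have h2k : (0 : ℝ) < 2 ^ k := by positivity
  have hk1 : (2 : ℝ) ^ (k + 1) = 2 * 2 ^ k := by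
    rw [zpow_add₀ (by norm_num)]
    ring
  have hk2 : (2 : ℝ) ^ (k + 2) = 4 * 2 ^ k := by
    rw [zpow_add₀ (by norm_num)]
    norm_num
    ring
  have hTpos : (0 : ℝ) < T := by
    rw [hT]
    positivity
  have hPr : (1 : ℝ) ≤ P := by exact_mod_cast hP1
  set N : ℕ → Finset ℕ := fun s => A.filter fun z => ψ a ≤ ψ z ∧
    T * (P * (ψ z - ψ a)) < s * 2 ^ k with hN
  have hmono : ∀ s t, s ≤ t → N s ⊆ N t := by
    intro s t hst z hz
    obtain ⟨h1, h2, h3⟩ := mem_filter.mp hz
    refine mem_filter.mpr ⟨h1, h2, h3.trans_le ?_⟩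
    have : (s : ℝ) ≤ t := by exact_mod_cast hst
    nlinarith
  have hPz : ∀ s, s ≤ T → ∀ z ∈ N s, ψ a ≤ ψ z ∧ P * (ψ z - ψ a) < 2 ^ k := by
    intro s hs z hz
    obtain ⟨h1, h2, h3⟩ := mem_filter.mp hz
    refine ⟨h2, ?_⟩
    have h4 : (s : ℝ) ≤ T := by exact_mod_cast hs
    have h5 : (T : ℝ) * (P * (ψ z - ψ a)) < T * 2 ^ k := h3.trans_le (by nlinarith)
    exact lt_of_mul_lt_mul_left h5 hTpos.le
  have hwin : ∀ s, s ≤ T → ∀ z ∈ N s, (2 : ℝ) ^ k ≤ ψ z ∧ ψ z < (2 : ℝ) ^ (k + 2) := by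
    intro s hs z hz
    obtain ⟨h2, h3⟩ := hPz s hs z hz
    refine ⟨ha1.trans h2, ?_⟩
    have h6 : ψ z - ψ a ≤ P * (ψ z - ψ a) := by
      have : 0 ≤ ψ z - ψ a := by linarith
      nlinarith
    rw [hk1] at ha2
    rw [hk2]
    linarith
  have hcard : ∀ s, s ≤ T → (N s).card ≤ P := by
    intro s hs
    refine (card_le_card ?_).trans hP
    intro z hz
    obtain ⟨h2, h3⟩ := hPz s hs z hz
    refine mem_filter.mpr ⟨(mem_filter.mp hz).1, h2, ?_⟩
    have h4 : ψ z - ψ a < 2 ^ k / P := by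
      rw [lt_div_iff₀ (by linarith)]
      linarith
    linarith
  have h1mem : ∀ s, 1 ≤ s → a ∈ N s := by
    intro s hs
    refine mem_filter.mpr ⟨haA, le_rfl, ?_⟩
    rw [sub_self, mul_zero, mul_zero]
    have : (0 : ℝ) < s := by exact_mod_cast hs
    positivity
  obtain ⟨s, hs1, hsT, hs⟩ : ∃ s, 1 ≤ s ∧ s + 1 ≤ T ∧ (N (s + 1)).card ≤ 2 * (N s).card := by
    by_contra hcon
    push Not at hcon
    have h3 : ∀ q, q + 1 ≤ T → 2 ^ q ≤ (N (q + 1)).card := by
      intro q
      induction q with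
      | zero =>
        intro _
        exact card_pos.mpr ⟨a, h1mem 1 le_rfl⟩
      | succ q ih =>
        intro hq
        have h4 := ih (by omega)
        have h5 := hcon (q + 1) (by omega) hq
        rw [pow_succ]
        omega
    have h4 := h3 (Nat.log 2 P + 1) (by omega)
    have h5 := hcard T le_rfl
    have h6 := Nat.lt_pow_succ_log_self (b := 2) (by norm_num) P
    have h7 : Nat.log 2 P + 1 + 1 = T := by omega
    rw [h7] at h4
    omega
  refine ⟨N s, N (s + 1), filter_subset _ _, filter_subset _ _, hmono _ _ (by omega),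
    ⟨a, h1mem s hs1⟩, hs, hcard _ hsT, hwin _ hsT, ?_⟩
  intro y hy z hz hyz hd
  obtain ⟨_, h2, h3⟩ := mem_filter.mp hy
  refine mem_filter.mpr ⟨hz, h2.trans hyz, ?_⟩
  push_cast
  nlinarith

/-- The dyadic windows met by `ψ (A)`. -/
noncomputable def dyadic : Finset ℤ := A.image fun a => Int.log 2 (ψ a)

/-- The dyadic windows `[2 ^ k, 2 ^ (k + 1))` which contain `ψ a` for some `a ∈ A` such that at most
`P` points of `A` are mapped to `[ψ a, ψ a + 2 ^ k / P)`. -/
noncomputable def thin (P : ℕ) : Finset ℤ := by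
  classical
  exact (dyadic A ψ).filter fun k => ∃ a ∈ A, (2 : ℝ) ^ k ≤ ψ a ∧ ψ a < (2 : ℝ) ^ (k + 1) ∧
    (A.filter fun z => ψ a ≤ ψ z ∧ ψ z < ψ a + (2 : ℝ) ^ k / P).card ≤ P

theorem log_iff {r : ℝ} (hr : 0 < r) (k : ℤ) :
    Int.log 2 r = k ↔ (2 : ℝ) ^ k ≤ r ∧ r < (2 : ℝ) ^ (k + 1) := by
  have h1 := Int.zpow_log_le_self (b := 2) (by norm_num) hr
  have h2 := Int.lt_zpow_succ_log_self (b := 2) (by norm_num) r
  push_cast at h1 h2
  constructor
  · rintro rfl
    exact ⟨h1, h2⟩
  · rintro ⟨h3, h4⟩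
    have h5 : k < Int.log 2 r + 1 := (zpow_lt_zpow_iff_right₀ (by norm_num : (1 : ℝ) < 2)).mp
      (h3.trans_lt h2)
    have h6 : Int.log 2 r < k + 1 := (zpow_lt_zpow_iff_right₀ (by norm_num : (1 : ℝ) < 2)).mp
      (h1.trans_lt h4)
    omega

variable {A ψ}

/-- The bound for windows in one residue class modulo 3. -/
theorem class_bound (hpos : ∀ a ∈ A, 0 < ψ a)
    (hadd : ∀ a ∈ A, ∀ b ∈ A, a ≠ b → a + b ∈ A → ψ (a + b) = ψ a + ψ b) (l : ℕ)
    (hl : ∀ B ⊆ A, (∀ b ∈ B, ∀ b' ∈ B, b ≠ b' → b + b' ∉ A) → B.card ≤ l) (P : ℕ)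
    (hP1 : 1 ≤ P) (K : Finset ℤ) (hK : K ⊆ thin A ψ P)
    (h3 : ∀ j ∈ K, ∀ k ∈ K, j < k → j + 3 ≤ k) :
    (K.card : ℝ) ≤ 2 * l * (6 * Nat.log 2 P + 9) := by
  classical
  set T : ℕ := Nat.log 2 P + 2 with hT
  have hex : ∀ k ∈ K, ∃ V V' : Finset ℕ, V ⊆ A ∧ V' ⊆ A ∧ V ⊆ V' ∧ V.Nonempty ∧
      V'.card ≤ 2 * V.card ∧ V'.card ≤ P ∧
      (∀ z ∈ V', (2 : ℝ) ^ k ≤ ψ z ∧ ψ z < (2 : ℝ) ^ (k + 2)) ∧
      ∀ y ∈ V, ∀ z ∈ A, ψ y ≤ ψ z → (T : ℝ) * (P * (ψ z - ψ y)) ≤ (2 : ℝ) ^ k → z ∈ V' := by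
    intro k hk
    have h1 := hK hk
    unfold thin at h1
    obtain ⟨_, a, ha, ha1, ha2, h4⟩ := mem_filter.mp h1
    exact exists_block A ψ P hP1 k a ha ha1 ha2 h4
  choose! V V' hVA hV'A hVV' hne hdbl hVP hwin hnext using hex
  have hc : ∀ k ∈ K, (0 : ℝ) < (V k).card := fun k hk => by
    exact_mod_cast card_pos.mpr (hne k hk)
  set q : ℤ → ℤ → ℝ := fun j k =>
    (∑ x ∈ V j, ∑ y ∈ V k, if Adj A x y then (1 : ℝ) else 0) / ((V j).card * (V k).card) with hq
  have hq0 : ∀ j k, 0 ≤ q j k := by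
    intro j k
    rw [hq]
    apply div_nonneg _ (by positivity)
    apply sum_nonneg
    intro x _
    apply sum_nonneg
    intro y _
    split_ifs <;> norm_num
  have hq1 : ∀ j ∈ K, ∀ k ∈ K, q j k ≤ 1 := by
    intro j hj k hk
    rw [hq]
    apply div_le_one_of_le₀ _ (by positivity)
    calc (∑ x ∈ V j, ∑ y ∈ V k, if Adj A x y then (1 : ℝ) else 0)
        ≤ ∑ x ∈ V j, ∑ y ∈ V k, (1 : ℝ) := by
          apply sum_le_sum
          intro x _
          apply sum_le_sum
          intro y _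
          split_ifs <;> norm_num
      _ = _ := by
          rw [sum_const, sum_const]
          simp
  have hqs : ∀ j k, q j k = q k j := by
    intro j k
    rw [hq]
    simp only
    rw [sum_comm, mul_comm ((V j).card : ℝ)]
    congr 1
    apply sum_congr rfl
    intro x _
    apply sum_congr rfl
    intro y _
    have : Adj A y x ↔ Adj A x y := ⟨Adj.symm, Adj.symm⟩
    simp [this]
  -- the sum over the lower windows
  have hF : ∀ k ∈ K, ∑ j ∈ K with j ≤ k, q j k ≤ 6 * Nat.log 2 P + 9 := by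
    intro k hk
    set D : ℕ := T + (Nat.log 2 P + 1) with hD
    rw [← sum_filter_add_sum_filter_not (K.filter fun j => j ≤ k) (fun j => j + 2 + D ≤ k)]
    have hclose : ∑ j ∈ (K.filter fun j => j ≤ k) with ¬ j + 2 + D ≤ k, q j k ≤ D + 2 := by
      calc ∑ j ∈ (K.filter fun j => j ≤ k) with ¬ j + 2 + D ≤ k, q j k
          ≤ ∑ j ∈ (K.filter fun j => j ≤ k) with ¬ j + 2 + D ≤ k, (1 : ℝ) := by
            apply sum_le_sum
            intro j hj
            exact hq1 j (mem_filter.mp (mem_filter.mp hj).1).1 k hk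
        _ = (((K.filter fun j => j ≤ k).filter fun j => ¬ j + 2 + D ≤ k).card : ℝ) := by simp
        _ ≤ ((Ioc (k - D - 2) k).card : ℝ) := by
            apply Nat.cast_le.mpr
            apply card_le_card
            intro j hj
            obtain ⟨h1, h2⟩ := mem_filter.mp hj
            have h4 := (mem_filter.mp h1).2
            rw [mem_Ioc]
            omega
        _ = D + 2 := by
            rw [Int.card_Ioc]
            have : (k - (k - D - 2)).toNat = D + 2 := by omega
            rw [this]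
            push_cast
            ring
    have hfar : ∑ j ∈ (K.filter fun j => j ≤ k) with j + 2 + D ≤ k, q j k ≤
        4 * (Nat.log 2 P + 1) := by
      set J := (K.filter fun j => j ≤ k).filter fun j => j + 2 + D ≤ k with hJ
      have hJK : ∀ j ∈ J, j ∈ K := fun j hj => (mem_filter.mp (mem_filter.mp hj).1).1
      have hJk : ∀ j ∈ J, j + 2 + D ≤ k := fun j hj => (mem_filter.mp hj).2
      have hbest : ∀ j ∈ J, ∃ x ∈ V j, ∀ x' ∈ V j, ((V k).filter fun y => Adj A x' y).card ≤
          ((V k).filter fun y => Adj A x y).card := fun j hj =>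
        exists_max_image (V j) (fun x => ((V k).filter fun y => Adj A x y).card) (hne j (hJK j hj))
      choose! x hxV hxmax using hbest
      have hxA : ∀ j ∈ J, x j ∈ A := fun j hj => hVA j (hJK j hj) (hxV j hj)
      have hxwin : ∀ j ∈ J, (2 : ℝ) ^ j ≤ ψ (x j) ∧ ψ (x j) < (2 : ℝ) ^ (j + 2) := fun j hj =>
        hwin j (hJK j hj) _ (hVV' j (hJK j hj) (hxV j hj))
      have hsmall : ∀ j ∈ J, (T : ℝ) * (P * ψ (x j)) ≤ 2 ^ k := by
        intro j hj
        have h1 : (T : ℝ) * P ≤ (2 : ℝ) ^ (D : ℤ) := by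
          rw [zpow_natCast]
          have h6 := (Nat.lt_two_pow_self (n := T)).le
          have h7 := (Nat.lt_pow_succ_log_self (b := 2) (by norm_num) P).le
          have h8 : T * P ≤ 2 ^ D := by
            rw [hD, pow_add]
            exact Nat.mul_le_mul h6 h7
          exact_mod_cast h8
        have h2 : (2 : ℝ) ^ (D : ℤ) * (2 : ℝ) ^ (j + 2) ≤ 2 ^ k := by
          rw [← zpow_add₀ (by norm_num)]
          exact zpow_le_zpow_right₀ (by norm_num) (by have := hJk j hj; omega)
        have h4 := (hxwin j hj).2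
        have h5 := hpos _ (hxA j hj)
        calc (T : ℝ) * (P * ψ (x j)) = (T * P) * ψ (x j) := by ring
          _ ≤ (2 : ℝ) ^ (D : ℤ) * (2 : ℝ) ^ (j + 2) := by
              apply mul_le_mul h1 h4.le h5.le (by positivity)
          _ ≤ _ := h2
      have hqx : ∀ j ∈ J, q j k ≤ (((V k).filter fun y => Adj A (x j) y).card : ℝ) / (V k).card := by
        intro j hj
        have hj0 := hc j (hJK j hj)
        have hk0 := hc k hk
        rw [hq]
        simp only
        rw [div_le_div_iff₀ (by positivity) hk0]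
        have h1 : (∑ x' ∈ V j, ∑ y ∈ V k, if Adj A x' y then (1 : ℝ) else 0) ≤
            (V j).card * ((V k).filter fun y => Adj A (x j) y).card := by
          rw [← nsmul_eq_mul, ← sum_const]
          apply sum_le_sum
          intro x' hx'
          rw [← sum_filter, sum_const, nsmul_eq_mul, mul_one]
          exact_mod_cast hxmax j hj x' hx'
        nlinarith
      have hedge := edges ψ (V' k) J x (fun j hj => hpos _ (hxA j hj)) (by
        intro j hj j' hj' hlt
        have h1 := h3 j' (hJK j' hj') j (hJK j hj) hlt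
        have h2 := (hxwin j' hj').2
        have h4 := (hxwin j hj).1
        have h5 : (2 : ℝ) * 2 ^ (j' + 2) ≤ 2 ^ j := by
          have : (2 : ℝ) * 2 ^ (j' + 2) = 2 ^ (j' + 3) := by
            rw [show j' + 3 = 1 + (j' + 2) by ring, zpow_add₀ (by norm_num : (2 : ℝ) ≠ 0) 1,
              zpow_one]
          rw [this]
          exact zpow_le_zpow_right₀ (by norm_num) h1
        linarith) (fun j => (V k).filter fun y => Adj A (x j) y) (by
        intro j hj y hy
        obtain ⟨hyV, hadj⟩ := mem_filter.mp hy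
        have hywin := hwin k hk y (hVV' k hk hyV)
        have hlt : ψ (x j) < ψ y := by
          refine (hxwin j hj).2.trans_le (le_trans ?_ hywin.1)
          exact zpow_le_zpow_right₀ (by norm_num) (by have := hJk j hj; omega)
        have hnexy : x j ≠ y := by
          intro h
          rw [h] at hlt
          exact lt_irrefl _ hlt
        have hsA : x j + y ∈ A := by
          rcases hadj with h | h
          · exact absurd h hnexy
          · exact h
        have hψ := hadd _ (hxA j hj) y (hVA k hk hyV) hnexy hsA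
        refine ⟨hVV' k hk hyV, ?_, hψ⟩
        apply hnext k hk y hyV _ hsA
        · rw [hψ]
          linarith [hpos _ (hxA j hj)]
        · rw [hψ]
          have := hsmall j hj
          have h6 : ψ (x j) + ψ y - ψ y = ψ (x j) := by ring
          rw [h6]
          exact this)
      have hlog : Nat.log 2 (V' k).card ≤ Nat.log 2 P := Nat.log_mono_right (hVP k hk)
      have hk0 := hc k hk
      calc ∑ j ∈ J, q j k ≤ ∑ j ∈ J, (((V k).filter fun y => Adj A (x j) y).card : ℝ) /
            (V k).card := sum_le_sum hqx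
        _ = ((∑ j ∈ J, ((V k).filter fun y => Adj A (x j) y).card : ℕ) : ℝ) / (V k).card := by
            rw [← sum_div]
            push_cast
            rfl
        _ ≤ ((2 * (2 * (V k).card) * (Nat.log 2 P + 1) : ℕ) : ℝ) / (V k).card := by
            apply div_le_div_of_nonneg_right _ hk0.le
            apply Nat.cast_le.mpr
            refine hedge.trans ?_
            have := hdbl k hk
            exact Nat.mul_le_mul (by omega) (by omega)
        _ = 4 * (Nat.log 2 P + 1) := by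
            push_cast
            field_simp
            ring
    have hD' : (D : ℝ) = 2 * Nat.log 2 P + 3 := by
      rw [hD, hT]
      push_cast
      ring
    rw [hD'] at hclose
    linarith
  -- the weights
  set w : ℕ → ℝ := fun x => ∑ k ∈ K, if x ∈ V k then (1 : ℝ) / (V k).card else 0 with hw
  have hw0 : ∀ x, 0 ≤ w x := by
    intro x
    apply sum_nonneg
    intro k _
    split_ifs
    · positivity
    · exact le_rfl
  set S := K.biUnion V with hS
  have hSA : S ⊆ A := by
    intro x hx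
    obtain ⟨k, hk, hxk⟩ := mem_biUnion.mp hx
    exact hVA k hk hxk
  have hsumf : ∀ k ∈ K, ∀ R : Finset ℕ, ∀ g : ℕ → ℝ, R ⊆ S → (∀ x ∈ V k, x ∈ R) →
      ∑ x ∈ R, (if x ∈ V k then (1 : ℝ) / (V k).card else 0) * g x =
        (∑ x ∈ V k, g x) / (V k).card := by
    intro k hk R g hR hV
    rw [sum_div]
    simp only [ite_mul, zero_mul]
    rw [← sum_filter]
    have : R.filter (fun x => x ∈ V k) = V k := by
      ext x
      rw [mem_filter]
      exact ⟨fun h => h.2, fun h => ⟨hV x h, h⟩⟩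
    rw [this]
    apply sum_congr rfl
    intro x _
    ring
  have hVS : ∀ k ∈ K, ∀ x ∈ V k, x ∈ S := fun k hk x hx => mem_biUnion.mpr ⟨k, hk, hx⟩
  have hW : ∑ x ∈ S, w x = K.card := by
    rw [hw]
    simp only
    rw [sum_comm]
    have : ∀ k ∈ K, ∑ x ∈ S, (if x ∈ V k then (1 : ℝ) / (V k).card else 0) = 1 := by
      intro k hk
      have h1 := hsumf k hk S (fun _ => 1) subset_rfl (hVS k hk)
      simp only [mul_one, sum_const, nsmul_eq_mul] at h1
      rw [h1]
      exact div_self (hc k hk).ne'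
    rw [sum_congr rfl this]
    simp
  have hinner : ∀ x, ∑ y ∈ S with Adj A x y, w y =
      ∑ k ∈ K, (∑ y ∈ V k, if Adj A x y then (1 : ℝ) else 0) / (V k).card := by
    intro x
    rw [hw]
    simp only
    rw [sum_comm]
    apply sum_congr rfl
    intro k hk
    rw [sum_filter, ← hsumf k hk S (fun y => if Adj A x y then (1 : ℝ) else 0) subset_rfl
      (hVS k hk)]
    apply sum_congr rfl
    intro y _
    by_cases h : Adj A x y <;> simp [h]
  have hQ : ∑ x ∈ S, w x * ∑ y ∈ S with Adj A x y, w y = ∑ j ∈ K, ∑ k ∈ K, q j k := by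
    simp only [hinner]
    rw [hw]
    simp only [sum_mul]
    rw [sum_comm]
    apply sum_congr rfl
    intro j hj
    rw [hsumf j hj S _ subset_rfl (hVS j hj), sum_comm, sum_div]
    apply sum_congr rfl
    intro k hk
    rw [hq]
    simp only
    rw [← sum_div, div_div, mul_comm ((V k).card : ℝ)]
  have hms := ms A w hw0 l S (fun B hB => hl B (hB.trans hSA))
  rw [hW, hQ] at hms
  have hQ2 : ∑ j ∈ K, ∑ k ∈ K, q j k ≤ 2 * (K.card * (6 * Nat.log 2 P + 9)) := by
    have h1 : ∑ k ∈ K, ∑ j ∈ K with j ≤ k, q j k ≤ K.card * (6 * Nat.log 2 P + 9) := by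
      rw [← nsmul_eq_mul, ← sum_const]
      exact sum_le_sum hF
    have h2 : ∀ j ∈ K, ∀ k ∈ K, q j k ≤ (if j ≤ k then q j k else 0) +
        (if k ≤ j then q k j else 0) := by
      intro j _ k _
      rcases le_total j k with h | h
      · rw [if_pos h]
        split_ifs
        · linarith [hq0 k j]
        · linarith
      · rw [if_pos h, ← hqs j k]
        split_ifs
        · linarith [hq0 j k]
        · linarith
    calc ∑ j ∈ K, ∑ k ∈ K, q j k ≤ ∑ j ∈ K, ∑ k ∈ K, ((if j ≤ k then q j k else 0) +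
          (if k ≤ j then q k j else 0)) := sum_le_sum fun j hj => sum_le_sum fun k hk => h2 j hj k hk
      _ = ∑ k ∈ K, ∑ j ∈ K with j ≤ k, q j k + ∑ j ∈ K, ∑ k ∈ K with k ≤ j, q k j := by
          simp only [sum_add_distrib, sum_filter]
          congr 1
          exact sum_comm
      _ ≤ _ := by linarith
  rcases K.eq_empty_or_nonempty with h0 | hKne
  · rw [h0]
    simp
    positivity
  · have hK0 : (0 : ℝ) < K.card := by exact_mod_cast card_pos.mpr hKne
    have h5 : (K.card : ℝ) * K.card ≤ K.card * (2 * l * (6 * Nat.log 2 P + 9)) := by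
      have := mul_le_mul_of_nonneg_left hQ2 (Nat.cast_nonneg (α := ℝ) l)
      nlinarith
    exact le_of_mul_le_mul_left h5 hK0

/-- The number of thin windows. -/
theorem thin_bound (hpos : ∀ a ∈ A, 0 < ψ a)
    (hadd : ∀ a ∈ A, ∀ b ∈ A, a ≠ b → a + b ∈ A → ψ (a + b) = ψ a + ψ b) (l : ℕ)
    (hl : ∀ B ⊆ A, (∀ b ∈ B, ∀ b' ∈ B, b ≠ b' → b + b' ∉ A) → B.card ≤ l) (P : ℕ)
    (hP1 : 1 ≤ P) : ((thin A ψ P).card : ℝ) ≤ 6 * l * (6 * Nat.log 2 P + 9) := by
  classical
  have h1 : (thin A ψ P).card = ∑ r ∈ range 3, ((thin A ψ P).filter fun k =>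
      (k % 3).toNat = r).card := by
    apply card_eq_sum_card_fiberwise
    intro k _
    simp only [coe_range, Set.mem_Iio]
    omega
  have h2 : ∀ r ∈ range 3, (((thin A ψ P).filter fun k => (k % 3).toNat = r).card : ℝ) ≤
      2 * l * (6 * Nat.log 2 P + 9) := by
    intro r _
    apply class_bound hpos hadd l hl P hP1 _ (filter_subset _ _)
    intro j hj k hk hlt
    have h3 := (mem_filter.mp hj).2
    have h4 := (mem_filter.mp hk).2
    omega
  rw [h1]
  push_cast
  refine (sum_le_sum h2).trans (le_of_eq ?_)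
  rw [sum_const, card_range]
  simp
  ring

/-- Consecutive windows. -/
theorem step_bound (hpos : ∀ a ∈ A, 0 < ψ a)
    (hadd : ∀ a ∈ A, ∀ b ∈ A, a ≠ b → a + b ∈ A → ψ (a + b) = ψ a + ψ b) (l : ℕ)
    (hl : ∀ B ⊆ A, (∀ b ∈ B, ∀ b' ∈ B, b ≠ b' → b + b' ∉ A) → B.card ≤ l) (k : ℤ) :
    (A.filter fun a => Int.log 2 (ψ a) = k).card ≤
      l * ((A.filter fun a => Int.log 2 (ψ a) = k + 1).card + 1) := by
  classical
  set S := A.filter fun a => Int.log 2 (ψ a) = k with hS
  set S₁ := A.filter fun a => Int.log 2 (ψ a) = k + 1 with hS₁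
  have hms := ms A (fun _ => 1) (fun _ => zero_le_one) l S
    (fun B hB => hl B (hB.trans (filter_subset _ _)))
  simp only [sum_const, nsmul_eq_mul, mul_one, one_mul] at hms
  have h1 : ∀ x ∈ S, (S.filter fun y => Adj A x y).card ≤ S₁.card + 1 := by
    intro x hx
    obtain ⟨hxA, hxk⟩ := mem_filter.mp hx
    have hsub : S.filter (fun y => Adj A x y) ⊆
        insert x ((S.filter fun y => y ≠ x ∧ x + y ∈ A)) := by
      intro y hy
      obtain ⟨hyS, hadj⟩ := mem_filter.mp hy
      by_cases h : y = x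
      · exact mem_insert.mpr (Or.inl h)
      · refine mem_insert.mpr (Or.inr (mem_filter.mpr ⟨hyS, h, ?_⟩))
        rcases hadj with h' | h'
        · exact absurd h'.symm h
        · exact h'
    refine (card_le_card hsub).trans ((card_insert_le _ _).trans (Nat.add_le_add_right ?_ 1))
    apply card_le_card_of_injOn (fun y => x + y)
    · intro y hy
      obtain ⟨hyS, hne, hsA⟩ := mem_filter.mp (mem_coe.mp hy)
      obtain ⟨hyA, hyk⟩ := mem_filter.mp hyS
      refine mem_coe.mpr (mem_filter.mpr ⟨hsA, ?_⟩)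
      have hψ := hadd x hxA y hyA (Ne.symm hne) hsA
      rw [log_iff (hpos _ hsA), hψ]
      obtain ⟨a1, a2⟩ := (log_iff (hpos x hxA) k).mp hxk
      obtain ⟨b1, b2⟩ := (log_iff (hpos y hyA) k).mp hyk
      have hk1 : (2 : ℝ) ^ (k + 1) = 2 ^ k + 2 ^ k := by
        rw [zpow_add₀ (by norm_num)]
        ring
      have hk2 : (2 : ℝ) ^ (k + 1 + 1) = 2 ^ (k + 1) + 2 ^ (k + 1) := by
        rw [zpow_add₀ (by norm_num) (k + 1)]
        ring
      constructor
      · rw [hk1]
        linarith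
      · rw [hk2]
        linarith
    · intro y _ y' _ h
      simpa using h
  have h2 : (S.card : ℝ) ^ 2 ≤ l * (S.card * (S₁.card + 1)) := by
    refine hms.trans (mul_le_mul_of_nonneg_left ?_ (Nat.cast_nonneg _))
    rw [← nsmul_eq_mul, ← sum_const]
    apply sum_le_sum
    intro x hx
    exact_mod_cast h1 x hx
  rcases Nat.eq_zero_or_pos S.card with h0 | h0
  · rw [h0]
    exact Nat.zero_le _
  · have h3 : S.card ^ 2 ≤ l * (S.card * (S₁.card + 1)) := by exact_mod_cast h2
    have h4 : S.card * S.card ≤ S.card * (l * (S₁.card + 1)) := by nlinarith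
    exact Nat.le_of_mul_le_mul_left h4 h0

/-- The trivial bound. -/
theorem trivial_bound (hpos : ∀ a ∈ A, 0 < ψ a)
    (hadd : ∀ a ∈ A, ∀ b ∈ A, a ≠ b → a + b ∈ A → ψ (a + b) = ψ a + ψ b) (l : ℕ) (hl2 : 2 ≤ l)
    (hl : ∀ B ⊆ A, (∀ b ∈ B, ∀ b' ∈ B, b ≠ b' → b + b' ∉ A) → B.card ≤ l) :
    A.card ≤ 2 * (dyadic A ψ).card * l ^ (dyadic A ψ).card := by
  classical
  set m := (dyadic A ψ).card with hm
  set N : ℤ → ℕ := fun k => (A.filter fun a => Int.log 2 (ψ a) = k).card with hN
  have hstep : ∀ k, N k ≤ l * (N (k + 1) + 1) := step_bound hpos hadd l hl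
  have hiter : ∀ (r : ℕ) (k : ℤ), N k + 2 ≤ l ^ r * (N (k + r) + 2) := by
    intro r
    induction r with
    | zero => intro k; simp
    | succ r ih =>
      intro k
      have h1 := hstep k
      have h2 := ih (k + 1)
      have h3 : k + 1 + (r : ℤ) = k + ((r + 1 : ℕ) : ℤ) := by push_cast; ring
      rw [h3] at h2
      calc N k + 2 ≤ l * (N (k + 1) + 2) := by nlinarith
        _ ≤ l * (l ^ r * (N (k + ((r + 1 : ℕ) : ℤ)) + 2)) := Nat.mul_le_mul_left _ h2
        _ = _ := by
            rw [pow_succ]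
            ring
  have hbound : ∀ k, N k ≤ 2 * l ^ m := by
    intro k
    obtain ⟨r, hr, hr0⟩ : ∃ r, r ≤ m ∧ N (k + (r : ℤ)) = 0 := by
      by_contra hcon
      push Not at hcon
      have h1 : (range (m + 1)).card ≤ (dyadic A ψ).card := by
        apply card_le_card_of_injOn (fun r : ℕ => k + (r : ℤ))
        · intro r hr
          have h2 := hcon r (by
            have := mem_range.mp (mem_coe.mp hr)
            omega)
          obtain ⟨a, ha⟩ := card_pos.mp (Nat.pos_of_ne_zero h2)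
          obtain ⟨haA, hak⟩ := mem_filter.mp ha
          exact mem_coe.mpr (mem_image.mpr ⟨a, haA, hak⟩)
        · intro r _ r' _ h
          simpa using h
      rw [card_range] at h1
      omega
    have h1 := hiter r k
    rw [hr0] at h1
    have h2 : l ^ r ≤ l ^ m := Nat.pow_le_pow_right (by omega) hr
    omega
  have hcard : A.card = ∑ k ∈ dyadic A ψ, N k := by
    apply card_eq_sum_card_fiberwise
    intro a ha
    exact mem_coe.mpr (mem_image_of_mem _ (mem_coe.mp ha))
  rw [hcard]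
  calc ∑ k ∈ dyadic A ψ, N k ≤ ∑ k ∈ dyadic A ψ, 2 * l ^ m := sum_le_sum fun k _ => hbound k
    _ = 2 * m * l ^ m := by
        rw [sum_const, smul_eq_mul, ← hm]
        ring

end

end Pool.MPc7c4cf
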